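import Mathlib
import Pool.Agent.V1168.UN.Thms

/-!
# Semisimplicity of the Frobenius eigenvalue 1 for products with abelian varieties of almost all slope
types of all CM fields

Let `K i` (`i` in a finite set) be CM fields of degree `2 g i`. Nothing is assumed about their Galois
groups. They are pairwise independent: for `i ≠ k` and all complex embeddings `φ` of `K i` and `ψ` of
`K k` some automorphism of `ℂ` is the identity on `φ (K i)` and the complex conjugation on `ψ (K k)`
(this is no condition if there is only one field). We fix an isomorphism `ν` of the algebraic closure
of `ℚ_p` with `ℂ`; it defines a `p`-adic valuation of `ℂ`, with the value one at `p`. Let `M i` be a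
function with nonzero integral values, all of which divide `n i`, on the complex embeddings of
`K i`, invariant under complex conjugation. A CM type `Φ i` of `K i` (a choice of one element out of
each complex conjugate pair of embeddings; there are `2 ^ (g i)` types), `M i` and a real number
`κ ≠ 0` prescribe the slopes `(a + κ M) / 2` (at the embeddings in `Φ i`) and `(a - κ M) / 2` (outside
of `Φ i`) of a Weil number for `p ^ a` in `K i` (`HasType`). If `p` splits completely in `K i` then,
by Honda and Tate, all slopes with rational values between `0` and `a` that are symmetric in this way
occur for abelian varieties over finite fields. The case `M = 1`, `κ = a` is the case of ordinary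
abelian varieties; the assumption on `M` says that `a / 2` is not a slope. Slopes are rational, so
integral weights `M` are no restriction.

There are `2 ^ (∑ i, g i)` families of CM types `Φ i` of the fields `K i`. A family is exceptional
(`exceptionalFamilies ν K M`) if the following statement (`Holds`) is false for it. Let `π i` be Weil
numbers for `q = p ^ a` that generate the fields `K i` and have the slope types `Φ i`, `M i`, and let
`f i` be monic polynomials whose complex roots are conjugates of `π i` (`IsPolyOf`), for instance the
characteristic polynomials of Frobenius of the abelian varieties in the isogeny classes of the `π i`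
over the field with `q` elements. Let `A` be an abelian variety over the field with `Q = q ^ s`
elements which is isogenous to a product of powers of abelian varieties coming from the field with
`q` elements, with characteristic polynomials `f i`, and let `X` be
**any** variety over the field with `Q` elements (singular, not proper) such that the eigenvalues of
Frobenius on its `ℓ`-adic homology, that is, of the Frobenius endomorphism of `X` on the `ℓ`-adic
homology of `A × X`, are roots of rational polynomials all of whose complex roots are unrelated to
the fields `K i`.

A complex number `ρ ≠ 0` is unrelated to the fields `K i` (`Unrelated`) if a function `n` on the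
complex embeddings of `K i` with `n (conj φ) = - n φ` which is invariant under all automorphisms of
`ℂ` that fix a power of `ρ` is zero. This is so if for each embedding `ψ` of `K i` some automorphism
which fixes a power of `ρ` is the complex conjugation on `ψ (K i)`: for instance, if a power of `ρ`
lies in a field linearly disjoint from the normal closures of the `K i`, or in a totally real field.
It is also so if the degree of `ρ` is less than twice the dimension of each nonzero space of
functions `n` stable under all automorphisms of `ℂ` (less than `2 g i` if this representation is
irreducible, as it is for generic CM fields).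

The groups are indexed cohomologically: let `e` be a fixed number and
`R^i(X, j) = H_(2 e - i)(X, ℚ_ℓ(e - j))`, and the same for `A × X` with `e + dim A` instead of `e`,
so that the product with a cycle of codimension `c` on `A` has the bidegree `(2 c, c)`. The Frobenius
endomorphism of `X` is to be read as `Q ^ e` times the geometric Frobenius on the homology without
twist; then the invariants are the elements on which it is multiplication by `Q ^ j`. Then for all
`i` and `j` **the eigenvalue `Q ^ j` of Frobenius on `R^i(A × X, j)` (before the twist; the eigenvalue
`1` after the twist) is semisimple if and only if this is true for `R^(i - 2 k)(X, j - k)` for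
`0 ≤ k ≤ dim A`.** For `i = 2 j` this is: `SS_a(A × X)` holds if and only if `SS_(a - k)(X)` holds for
`0 ≤ k ≤ dim A`.

This is not formal, although Frobenius is semisimple on the cohomology of `A`: the semisimplicity of
the eigenvalue `Q ^ j` for `A × X` involves all eigenvalues `ρ` of `X` for which `ρ α` is a power of
`Q` for some product `α` of eigenvalues of `A`. The starting file `AbelianTimesAnyVariety` is about
almost all abelian varieties over the fields with `q` elements, for `q → ∞`, and about the conjunction
of the statements for all `i`.

The framework: the Chow ring and the ring of correspondences of `A`, with rational coefficients, and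
the cohomology of `A`, with the formal properties and the theorems of Tate on divisors and of Kimura
on the nilpotence of homologically trivial correspondences (`AbelianData`, `IsAbelian`); and theories
relative to `X` (`RelData`, `IsRel`): the groups `H^i(X, j)` and `H^i(A × X, j)`, with the products
with classes on `A`, the push-forward from `A × X` to `X`, the operation of the correspondences from
`A` to `A` on `H^i(A × X, j)` and the Frobenius endomorphism of `X`. This is the framework of the
starting file `AlmostAllAbelianFactors` (MP_81b968_ag). Here the Frobenius
endomorphism of `A × X` is supposed to preserve the bidegrees (`PreservesDegrees`).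

The theorem bounds the number of the exceptional families: it is at most
`2 ^ (∑ i, g i) * ∑ i, C * (n i) ^ 2 * rate (K i) (g i) (q i)`, with an absolute constant `C`. Here
`q i` is any prime factor of `g i` (or `q i = 1`), and `rate K g q` is `(1 + log (2 g)) ^ 16` times
the smaller of the numbers `W (K) / √g` and `√g / q`; the second part of the theorem
(`WeightEstimate`) is `W (K) ≤ N ^ 2 * D ^ (1 / 4)`, where `N` is the number of the CM subfields of `K`
(with `K`) and `D` is the largest degree of a CM subfield of `K` that is normal over `ℚ` with a
nonabelian Galois group (`D = 1` if there are none). So the exceptional types are a proportion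
`O (n ^ 2 * g ^ (-1 / 4) * (log g) ^ 16)` of all types of all CM fields with a bounded number of CM
subfields. The number `W (K)` (`subfieldWeight K`) is the sum over the fields of definition `F` of the
isotypic components of the space of the odd functions on the complex embeddings of `K` of the number
of the CM subfields of `F`, multiplied by `[F : ℚ] ^ (1 / 4)` if `F` is normal over `ℚ` and its Galois
group is not abelian.

The proof. The bound for the number of the degenerate types is the one of the starting files
(`AllCMFields`, MP_e12fcd_ag, and `Y1.CT.ncard_of_unrel`): if the types are not degenerate, then a
product of `ρ` and of some eigenvalues of `A`, no two of them complex conjugate, is not a power of `q`,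
up to a root of unity, for all unrelated `ρ`.
If a Weil number `α` of the cohomology of `A` and a root `ρ` of the polynomial of the Frobenius
endomorphism `φ` of `X` have the product `Q ^ j`, then `α` is a product of pairs of complex conjugate
numbers, so that the eigenvectors of the Frobenius endomorphism `F` of `A` for `α` are products of
divisor classes. Let `p` be the projector given by dual systems `D t`, `E t` of products of divisor
classes on `A`. For a suitable polynomial `P` the correspondence `(1 - p) P (F)` is homologically
trivial, hence nilpotent, and `P (F)` is invertible on the elements on which `F φ` acts as `Q ^ j`,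
since there `F` satisfies the polynomial with the roots `Q ^ j / ρ`. So `p` acts there as the
identity. The same is true for the
generalized eigenvectors of `F φ` for `Q ^ j`: on them `F` satisfies a power of the polynomial with the
roots `Q ^ j / ρ`.
-/

set_option autoImplicit false

namespace Pool.Agent.Results.MP_16ef92_ag.AllCMTypesTimes

open NumberField Module Pool.Agent.H204R3.CM Pool.Agent.H977R3.CM Pool.Agent.TH170
  Pool.Agent.Y1.KN Pool.Agent.Y1.CT Pool.Agent.V1168.UN

/-- The reduction of the semisimplicity of the Frobenius eigenvalue `1` for `A × X` to the one for `X`
holds for all abelian varieties `A` whose Frobenius eigenvalues are powers of conjugates of Weil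
numbers with the slope types `Φ i`, `M i`, and all `X` unrelated to the fields `K i`. -/
def Holds {p : ℕ} [Fact p.Prime] (ν : PadicAlgCl p ≃+* ℂ) {I : Type} (K : I → Type)
    [∀ i, Field (K i)] [∀ i, NumberField (K i)] [∀ i, IsCMField (K i)]
    (M : ∀ i, (K i →+* ℂ) → ℤ) (Φ : ∀ i, Set (K i →+* ℂ)) : Prop :=
  ForAllTypes ν K M (SemisimpleHigher K) Φ

/-- The exceptional families of CM types. -/
def exceptionalFamilies {p : ℕ} [Fact p.Prime] (ν : PadicAlgCl p ≃+* ℂ) {I : Type} (K : I → Type)
    [∀ i, Field (K i)] [∀ i, NumberField (K i)] [∀ i, IsCMField (K i)]
    (M : ∀ i, (K i →+* ℂ) → ℤ) : Set (∀ i, Set (K i →+* ℂ)) :=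
  {Φ | (∀ i, IsCMType (Φ i)) ∧ ¬ Holds ν K M Φ}

/-- **The Frobenius eigenvalue `1` is semisimple for `A × X` in the bidegree `(i, j)` if and only if it is
for `X` in the bidegrees `(i - 2 k, j - k)`, `0 ≤ k ≤ dim A`, for the abelian varieties `A` of almost all
slope types of all CM fields and all unrelated `X`.** -/
theorem result :
    (∃ C : ℝ, 0 ≤ C ∧ ∀ (p : ℕ) [Fact p.Prime] (ν : PadicAlgCl p ≃+* ℂ) (I : Type) [Fintype I]
      (K : I → Type) [∀ i, Field (K i)] [∀ i, NumberField (K i)] [∀ i, IsCMField (K i)]
      (M : ∀ i, (K i →+* ℂ) → ℤ) (n g q : I → ℕ), PairwiseIndep K →
      (∀ i φ, M i (ComplexEmbedding.conjugate φ) = M i φ) → (∀ i, n i ≠ 0) →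
      (∀ i φ, M i φ ∣ (n i : ℤ)) → (∀ i, finrank ℚ (K i) = 2 * g i) →
      (∀ i, q i ∣ g i ∧ (q i = 1 ∨ (q i).Prime)) →
      ((exceptionalFamilies ν K M).ncard : ℝ) ≤
        2 ^ (∑ i, g i) * ∑ i, C * (n i : ℝ) ^ 2 * rate (K i) (g i) (q i)) ∧
    WeightEstimate := by
  obtain ⟨C, hC0, hC⟩ := ncard_of_unrel
  refine ⟨⟨C, hC0, ?_⟩, weight_estimate_holds⟩
  intro p _ ν I _ K _ _ _ M n g q hind hM hn hMn hg hq
  exact hC p ν I K M n g q hind hM hn hMn hg hq _ fun Q f hQ hR => semisimpleHigher hQ hR

end Pool.Agent.Results.MP_16ef92_ag.AllCMTypesTimes
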