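import Pool.Agent.V11106.SH.Semi

/-!
# Semisimplicity of the eigenvalue `q ^ r` up to errors which are small compared with the Betti number

Let `W` be a Weil cohomology theory (coefficients `K`) on a class of varieties closed under
products, with a Frobenius endomorphism of all cohomology algebras, compatible with pull-backs,
which acts on the classes of cycles of codimension `j` by `q ^ j`. Assume that the class contains,
for every `N`, a surface with algebraic cohomology and `N` independent divisor classes (a successive
blow-up of the projective plane in rational points).

**Fixed dimension.** If on the varieties `Y` of dimension `n + 2` the multiplicity of the eigenvalue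
`q ^ (r + 1)` on `H^(2 r + 2)(Y)` exceeds the dimension of the eigenspace by at most `o(b)`, where
`b` is the Betti number, then the eigenvalue `q ^ r` on `H^(2 r)(X)` is semisimple for all `X` of
dimension `n`.

**All dimensions.** Hence semisimplicity of these eigenvalues for all varieties and all `r` is
equivalent to differences which are bounded for each dimension and `r`, and to differences `o(b)`.
-/

open CategoryTheory AlgebraicGeometry

universe u v

namespace Pool.Agent.Results.MP_16ef92_ag.SublinearDefects

open Pool.Agent.H914 VarClass Obj WeilCohomology Pool.Agent.V11106.LB Pool.Agent.V11106.SH

variable {k : Type u} [Field k] {𝒱 : VarClass k} {ops : CycleOps 𝒱}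

theorem result (W : WeilCohomology.{u, v} ops) (hT : HasRationalSurfaces W)
    (G : GaloisLike W Unit) :
    (∀ n r : ℕ, MultiplicityUpToSublinear G (fun X => tateDim G X (r + 1)) (n + 2) (r + 1) →
      EigenvalueSemisimple G n r) ∧
    [∀ n r : ℕ, EigenvalueSemisimple G n r,
      ∀ n r : ℕ, MultiplicityUpToBounded G (fun X => tateDim G X r) n r,
      ∀ n r : ℕ, MultiplicityUpToSublinear G (fun X => tateDim G X r) n r].TFAE :=
  eigenvalueSemisimple_main hT G

end Pool.Agent.Results.MP_16ef92_ag.SublinearDefects
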